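import Pool.Agent.H25.CFL.All

/-!
# MP_e37c09_lc: the cofinality law for the regular ordinals of HOD

All cofinalities are those of `V`. An ordinal is called HOD-regular if it is a regular (infinite)
cardinal in HOD. For an ordinal `g` let `g⁺'` be its successor in HOD (`hs g`), and let `T` be the
class of the HOD-regular ordinals of cofinality `ω`.

(0) Let `lam` be HOD-regular with `ω < cf lam < |lam|`. There is `θ ≤ lam` with `cf θ = cf lam` such
that for every regular cardinal `μ < cf lam` the HOD-regular ordinals of cofinality `μ` are
unbounded in `θ`, every HOD-regular ordinal in `[θ, lam)` has cofinality at least `cf lam`, and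
every `A ⊆ lam` with `|A| < cf lam` is contained in a set in HOD which has in HOD fewer than `θ`
elements.

Let `δ` be extendible. For EVERY singular cardinal `g > δ`: (A) holds if and only if the cofinality
of `g⁺'` is neither `ω` nor `cf g`; and if `cf g = ω`, (A) holds if and only if `g⁺'` is not the union
of countably many sets in HOD with fewer than `g` elements in HOD. More precisely:

(1) If (A) holds then for every singular cardinal `g > δ` the cofinality of `g⁺'` is `g⁺`, and `g⁺'` is
not the union of countably many sets in HOD with fewer than `g` elements in HOD.

(2) If (A) fails then for each `l < δ` there is a cardinal `D` with `l < D < δ` such that: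

(reg) if `lam > D` is HOD-regular then `cf lam = ω` or there is `θ` as in (0) (with `μ < D` and
`μ < cf lam`), and moreover all HOD-regular ordinals greater than `D` in `[θ, lam]` have the
cofinality `cf lam`;

(card) for every cardinal `g > D` the class `T` is unbounded in `g`, and the cofinality of `g⁺'` is
`ω` or `cf g`;

(col) let `γ > D` be of cofinality `ω`, and `γ ∈ T` or `T` unbounded in `γ` (so `γ` can be any
cardinal of cofinality `ω` above `D`), and let `lam` be an ordinal such that there are only countably
many cardinals of HOD in `[γ, lam)`. Then `lam` is the union of countably many sets in HOD with fewer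
than `γ` elements in HOD; if `P` is a partial order in HOD for which in HOD the intersection of fewer
than `γ` open dense sets is dense, and `D b`, `b < lam`, are open dense subsets of `P` given by a
sequence in HOD, then through each condition there is in `V` a filter which meets all `D b`; and if
`lam ≥ γ` is HOD-regular then `cf lam = ω`.

Proof. Let `lam` be HOD-regular, `μ < cf lam` regular, and suppose that there is no sequence of length
`|lam|` of disjoint `μ`-stationary subsets of `lam` which is definable from ordinals. This is
automatic if `cf lam < |lam|`, as `lam` has a club subset with `cf lam` elements, and it is true for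
`μ < D < lam` for many `D < δ` if (A) fails (embeddings of extendibility, argument of Solovay).

Weak normality: if `f` is definable and regressive on a definable set `S` then for some `b < lam` the
set `{x ∈ S : f x ≥ b}` is null (not `μ`-stationary). Otherwise for each `ξ < lam` there is
`F ξ < lam` such that `{x ∈ S : ξ ≤ f x < F ξ}` is stationary, the closure points `z i`, `i < lam`, of
`F` are enumerated in HOD, and the sets `{x ∈ S : z i ≤ f x < z (i + 1)}` contradict the assumption.

Let `h x` be the cofinality of `x` in HOD and `c x : h x → x` increasing and cofinal, `c` definable.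
`h x` is HOD-regular and its cofinality is that of `x`. (i) `{x : h x = z}` is null for `z < lam`: by weak
normality there is `g i < lam` such that `{x : c x i ≥ g i}` is null, the supremum `b` of `g` is less
than `lam`, and for a cofinal map `k` from `μ` to `z` almost all `x` in the set satisfy
`c x (k m) < g (k m) < b` for all `m < μ`, so `x ≤ b`. (ii) Covering: let `S` be definable and
stationary. For each `ξ < lam` there is `F ξ < lam` such that for almost all `x ∈ S` some value of
`c x` is in `[ξ, F ξ)`; let `z i` be the closure points. If `A ⊆ lam`, `|A| < cf lam`, then for almost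
all `x ∈ S`, for all `a ∈ A`, `c x` has a value in `[z a, z (a + 1))`. The set of the `i` such that `c x`
has a value in `[z i, z (i + 1))` is in HOD, has at most `h x` elements in HOD, and contains `A`.
(iii) If `{x : h x ≤ v}` is stationary then no HOD-regular `a` in `(v, lam)` has `cf a < cf lam`,
by (ii) for a cofinal set `A` of `a`. (iv) Let `v < lam` be least such that `{x : h x ≤ v}` is
stationary. By (i) the set `{x : h x < v}` is stationary, so by completeness `cf v ≥ cf lam`, and
`cf v ≤ cf lam` as `lam` has a club subset with `cf lam` elements. The values of `h` at points of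
cofinality `μ` are unbounded in `v`. Put `θ = v`. (v) If there is no such `v` then by weak normality
`h x = x` for almost all `x`; put `θ = lam`. The ordinal `θ` does not depend on `μ`.

(card) The HOD-regular ordinals below `g⁺'` are at most `g`, and `T` is unbounded in `g` as for
regular cardinals `K > D` there is a club of ordinals below `K` which are inaccessible in HOD. So
`θ = g` if `cf g⁺' > ω`. (col) Let `lam ≥ γ` be HOD-regular and `cf lam > ω`. Then `γ ≤ θ`, `γ ≠ θ`, and
`θ` is the supremum of the elements of `T` in `[γ, θ)`, a countable set: a contradiction. The first
claim follows by induction on `lam`: for `lam ≤ γ` it is clear, if `lam` is not a cardinal of HOD it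
follows from that for a smaller ordinal, and if `lam > γ` is a cardinal of HOD then it is a limit of
countably many cardinals of HOD or HOD-regular, in both cases of cofinality `ω`. For the second let
`x k` be the countably many sets and take a sequence `q k` of conditions such that `q (k + 1)` is in
the sets `D b` for all `b ∈ x k`.
-/

open Ordinal Cardinal Order

universe u

theorem Pool.Agent.H25.Kept.CofinalityLaw.result :
    (∀ lam : Ordinal.{u}, HD.RegHOD lam → ℵ₀ < lam.cof → lam.cof < lam.card →
      ∃ th, Pool.Agent.H25.CFL.Law lam.cof lam th) ∧
    ∀ δ : Ordinal.{u}, HD.Extendible δ →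
      (∀ g : Cardinal.{u}, ℵ₀ ≤ g → ¬ g.IsRegular → δ < g.ord →
        (HD.CaseA δ ↔ (HD.hs g.ord).cof ≠ ℵ₀ ∧ (HD.hs g.ord).cof ≠ g.ord.cof) ∧
        (g.ord.cof = ℵ₀ → (HD.CaseA δ ↔ ¬ Pool.Agent.H25.CFL.SU g.ord (HD.hs g.ord)))) ∧
      ((HD.CaseA δ ∧ ∀ g : Cardinal.{u}, ℵ₀ ≤ g → ¬ g.IsRegular → δ < g.ord →
        (HD.hs g.ord).cof = succ g ∧ ¬ Pool.Agent.H25.CFL.SU g.ord (HD.hs g.ord)) ∨
      (¬ HD.CaseA δ ∧ ∀ l < δ, ∃ D : Cardinal.{u}, l < D.ord ∧ D.ord < δ ∧
        Pool.Agent.H25.CFL.LawB D)) :=
  Pool.Agent.H25.CFL.cfl2
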