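import Pool.Agent.H52.XH.All

/-!
# MP_e37c09_lc: elementary embeddings which are elements of HOD

Let `δ` be extendible. Then (A) holds, or for each `l < δ` there are `δ₁` and `δ₀` with
`l < δ₁ < δ₀ < δ` such that (1)-(5) hold. Write `W_β` for `(V_ β)^HOD` and `K⁺` for the successor
of `K` in HOD.

(1) For each regular cardinal `K > δ₀` one of the following holds: `cof K⁺ = ω`; HOD satisfies
`2 ^ K > K⁺`; for club many `γ < K` with `δ₁ ≤ cof γ` there is in HOD an elementary embedding of
`W_(γ + 1)` into `W_(K + 1)` with critical point `γ` which maps `γ` to `K`.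

(2) For each regular cardinal `K > δ₀` either `cof K⁺ = ω`, or `cof K⁺ = K` and `Ext δ₁ K K⁺`
holds:

for each `β' > K` such that HOD maps `K⁺` onto `W_β'` there is in `V` a map of `K` onto `W_β'`, and
for each such map `E` there are a club subset `C` of `K` and ordinals `b γ < K` such that for all
`γ ∈ C` with `δ₁ ≤ cof γ` there is in HOD an elementary embedding `j γ` of `W_(b γ)` into `W_β'`
with critical point `γ` which maps `γ` to `K` and whose range is `{E ζ : ζ < γ}`; moreover
`b γ = γ + η` if `β' = K + η` with `η < K`, so in HOD the ordinal `γ` is `η`-extendible with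
target `K`; and for `γ < γ'` in `C`, both of cofinality at least `δ₁`, there is in HOD an elementary
embedding `k` of `W_(b γ)` into `W_(b γ')` with critical point `γ` which maps `γ` to `γ'`,
and `j γ = j γ' ∘ k`.

(3) If HOD maps `lam` onto its power set of `K` then HOD maps `lam` onto `W_(K + 1)`.

(4) `Ext δ₁ K lam` holds for all regular `K > δ₀` and all `lam > K` which are regular in HOD with
`cof lam > δ₁` such that some regular cardinal less than `δ₁` is not the cofinality of an element of
`[K, lam)` which is regular in HOD.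

(5) If `lam > δ` is as in (4) for `K = δ`, or `lam` is the successor of `δ` in HOD and its cofinality
is not `ω`, and HOD maps `lam` onto `W_b` then for all large limit ordinals `η` the restriction to
`W_b` of every elementary embedding `j : V_ η → V_ θ` with critical point `δ` and `j δ > η` is an
element of HOD.

Proof. Let `f` map `K` onto `lam`, let `Q` in HOD map `lam` onto `W_β'`, and let `X_s` be the image
of `s` under `Q`. By the local dichotomy `f '' γ` is in HOD for club many `γ` with `δ₁ ≤ cof γ`, and a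
set `T` in HOD is an element of a normal ultrafilter `U` of HOD on `P_K(lam)` if `f '' γ ∈ T` for
stationarily many `γ` with `δ₁ ≤ cof γ < δ₀`. Call `X` full if every `z` in HOD, `z ⊆ X`, bounded in
rank by an ordinal in `X`, is `x ∩ X` for some `x ∈ X`. The set of the `s` such that `X_s` is not full
is not in `U`: choose counterexamples in HOD; by normality they are the sets `A' ∩ X_s` for one `A'`
in HOD, for almost all `s`, and `A'` is an element of `X_s` for almost all `s`. So `E '' γ` is full for
club many `γ` with `δ₁ ≤ cof γ < δ₀`, and by Fodor's theorem at `γ` for club many `γ` of larger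
cofinality. The collapse of a full elementary substructure `X` of `W_β'` with `X` in HOD is `W_b`, and
`j γ` is the inverse of the collapse. For (5) let `C` be a club subset of `δ` such that
`f '' γ` is in HOD for `γ ∈ C`, `δ₁ ≤ cof γ`; then `δ ∈ j(C)` and `j(f) '' δ = j '' lam` is in HOD.
-/

open Cardinal Order

universe u

theorem Pool.Agent.H25.Kept.ExtendibleInHOD.result
    (δ : Ordinal.{u}) (hδ : HD.Extendible δ) : HD.CaseA δ ∨ ∀ l < δ, ∃ δ₁ δ₀,
      l < δ₁ ∧ δ₁ < δ₀ ∧ δ₀ < δ ∧
        (∀ K : Cardinal.{u}, K.IsRegular → δ₀ < K.ord →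
          ((HD.hs K.ord).cof = ℵ₀ ∨ ¬ HD.PowHOD K.ord (HD.hs K.ord) ∨ ∃ C, HD.Clb K.ord C ∧
            ∀ γ ∈ C, γ < K.ord → δ₁ ≤ γ.cof.ord →
              ∃ j, Pool.Agent.H52.XH.HExt γ K.ord (γ + 1) (K.ord + 1) j) ∧
          ((HD.hs K.ord).cof = ℵ₀ ∨
            ((HD.hs K.ord).cof = K ∧ Pool.Agent.H52.XH.Ext δ₁ K (HD.hs K.ord))) ∧
          (∀ lam, HD.PowHOD K.ord lam → ∃ Q, Pool.Agent.H52.XH.OnV lam (K.ord + 1) Q) ∧
          ∀ lam, HD.RegHOD lam → K.ord < lam → δ₁ < lam.cof.ord → ¬ HD.Sprd δ₁ K.ord lam →
            Pool.Agent.H52.XH.Ext δ₁ K lam) ∧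
        (∀ lam, HD.RegHOD lam → δ < lam → δ₁ < lam.cof.ord → ¬ HD.Sprd δ₁ δ lam →
          Pool.Agent.H52.XH.Amn δ lam) ∧
        ((HD.hs δ).cof = ℵ₀ ∨ Pool.Agent.H52.XH.Amn δ (HD.hs δ)) :=
  Pool.Agent.H52.XH.All.tFIN2 δ hδ

/-! Claim of this hand-in when it was in the slot (until 2026-12-04 18:35Z, replaced by CofinalityLaw):

Proves: Let δ be extendible, W(b)=(V_b)^HOD, κ*=(κ⁺)^HOD. (A) holds, or for each l<δ there are m, n with l<m<n<δ such that for regular κ>n: cf κ*=ω, or HOD has 2^κ>κ⁺, or for club many γ<κ with cf γ≥m HOD has an elementary j:W(γ+1)→W(κ+1) with critical point γ, j(γ)=κ. Also cf κ* is ω, or κ and E(κ*); E(λ) if λ>κ is regular in HOD, cf λ>m and some regular μ<m is not the cofinality of a τ in [κ,λ) regular in HOD; if κ=δ, likewise J(κ*), J(λ). E(λ): if b>κ and HOD maps λ onto W(b) (if b=κ+1: onto P(κ)^HOD) then V has an enumeration e_ζ (ζ<κ) of W(b), and for each there are a club C⊂κ and c_γ<κ such that for γ in C with cf γ≥m HOD has an elementary j_γ:W(c_γ)→W(b) with critical point γ, γ↦κ, range {e_ζ: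 ζ<γ}, c_γ=γ+η if b=κ+η, η<κ, and for such γ'>γ such a k:W(c_γ)→W(c_γ'), γ↦γ', j_γ=j_γ'∘k. J(λ): if HOD maps λ onto W(b), all elementary i:V_η→V_θ, η a large limit, critical point δ, i(δ)>η, have i↾W(b) in HOD.
Definitions: Fml, Sat: formula, satisfaction. OD, HOD. Extendible. CaseA: (A). RegHOD: regular in HOD. Sprd: no such μ. HV: W. OnV, EnW: map onto it in HOD, V; PowHOD: onto P(κ). HExt: j. Ext: E. Emb: i. gj, Amn: J. hs: *. Clb: club.
Relation: Partial answer to Q1. Woodin: (A) gives J for all λ, δ extendible in HOD; else regular κ>δ are measurable in HOD. So if HOD has GCH it has 1-extendibles or cf κ*=ω for all large regular κ. Related: Goldberg, Poveda, Ben-Neria, Hayut. We know no such result.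
-/
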