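import Pool.Agent.H25.EE5.All

/-!
# `exp e` and `exp (1 / e)` are not both rational

Let `r` be a nonzero rational number, `E = r e`, and let `a, b, c, d, f, g, h` be integers with
`(a c + f h) ^ 2 = 1`, `a g ≠ b f` and `c g ≠ d f`. Then the two numbers `exp E` and
`exp ((a + b E) (c + d E) / (f + g E) + h)` are not both rational. For `r = 1` this says for
instance: if `e ^ e` is rational, then `exp (1 / e + h)` and `exp (1 / (e + f))` are irrational
for all integers `h` and `f`.
-/

set_option autoImplicit false

namespace Pool.Agent.H25.Kept.RationalPairs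

/-- `exp E` and `exp ((a + b E) (c + d E) / (f + g E) + h)`, where `E = r e`, are not both
rational. -/
theorem result : ∀ (r : ℚ) (a b c d f g h : ℤ), r ≠ 0 → (a * c + f * h) ^ 2 = 1 →
    a * g ≠ b * f → c * g ≠ d * f →
    ¬ ((∃ y : ℚ, Real.exp (r * Real.exp 1) = y) ∧
      (∃ z : ℚ, Real.exp ((a + b * (r * Real.exp 1)) * (c + d * (r * Real.exp 1)) /
        (f + g * (r * Real.exp 1)) + h) = z)) :=
  Pool.Agent.H25.EE5.main

end Pool.Agent.H25.Kept.RationalPairs
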