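import Pool.Agent.H46.SQ.Final

/-!
The number of integers represented as in the problem is at most `C (N / log N)` times the number
of `m ≤ N` with `p_m ^ 2 - 2` and `p_{p_m} ^ 2 - 2` prime.
-/

set_option autoImplicit false

namespace Pool.Agent.H25.Kept.RepresentedIntegers

/-- There is `C > 0` such that for all `N ≥ 2` the number of `n ≤ N` which are represented as in
the problem is at most `C (N / log N)` times the number of `m ≤ N` such that `p_m ^ 2 - 2` and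
`p_{p_m} ^ 2 - 2` are prime. -/
theorem result : ∃ C : ℝ, 0 < C ∧ ∀ N : ℕ, 2 ≤ N →
    (({n : ℕ | n ≤ N ∧ ∃ k m : ℕ, 0 < k ∧ 0 < m ∧ k + m = n ∧
      Nat.Prime ((Nat.nth Nat.Prime (k - 1)) ^ 2 - 2) ∧
      Nat.Prime ((Nat.nth Nat.Prime (m - 1)) ^ 2 - 2) ∧
      Nat.Prime ((Nat.nth Nat.Prime (Nat.nth Nat.Prime (m - 1) - 1)) ^ 2 - 2)}.ncard : ℝ)) ≤
      C * (N / Real.log N) *
        ({m : ℕ | 0 < m ∧ m ≤ N ∧ Nat.Prime ((Nat.nth Nat.Prime (m - 1)) ^ 2 - 2) ∧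
          Nat.Prime ((Nat.nth Nat.Prime (Nat.nth Nat.Prime (m - 1) - 1)) ^ 2 - 2)}.ncard : ℝ) :=
  Pool.Agent.H46.SQ.two

end Pool.Agent.H25.Kept.RepresentedIntegers
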